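import Pool.Agent.H35.TY.Stm

/-!
# The tilings as identities between series
-/

set_option autoImplicit false

namespace Pool.Agent.H72.TY

open Pool.Agent.H35
open Pool.Agent.H35.TY
open Pool.Agent.H35.CX (Ctx fac facA not_N uniq RC LC)
open Pool.Agent.H35.FC (star_nil star_append)

variable {α : Type}

/-- Unambiguous products. -/
theorem ind_mul (U W M : Set (List α)) (h0 : ∀ u v, u ∈ U → v ∈ W → u ++ v ∉ M)
    (h1 : ∀ w, w ∉ M → ∃ u v, u ∈ U ∧ v ∈ W ∧ u ++ v = w)
    (h2 : ∀ u v u' v', u ∈ U → v ∈ W → u' ∈ U → v' ∈ W → u ++ v = u' ++ v' → u = u') :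
    ind U * ind W = top - ind M := by
  funext w
  rw [mul_eq_sum, sub_apply]
  have htop : (top : NC α) w = 1 := rfl
  rw [htop]
  by_cases hw : w ∈ M
  · rw [ind_pos hw, sub_self]
    apply Finset.sum_eq_zero
    intro i _
    by_cases hu : w.take i ∈ U
    · have hv : w.drop i ∉ W := by
        intro hv
        have h3 := h0 _ _ hu hv
        rw [List.take_append_drop] at h3
        exact h3 hw
      rw [ind_neg hv, mul_zero]
    · rw [ind_neg hu, zero_mul]
  · rw [ind_neg hw, sub_zero]
    obtain ⟨u, v, hu, hv, rfl⟩ := h1 w hw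
    rw [Finset.sum_eq_single u.length]
    · rw [List.take_left', List.drop_left', ind_pos hu, ind_pos hv, mul_one]
      · rfl
      · rfl
    · intro i hi hne
      by_cases hu' : (u ++ v).take i ∈ U
      · have hv' : (u ++ v).drop i ∉ W := by
          intro hv'
          have h3 := h2 _ _ _ _ hu' hv' hu hv (List.take_append_drop i (u ++ v))
          apply hne
          rw [← h3, List.length_take]
          rw [Finset.mem_range] at hi
          omega
        rw [ind_neg hv', mul_zero]
      · rw [ind_neg hu', zero_mul]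
    · intro h3
      exfalso
      apply h3
      rw [Finset.mem_range, List.length_append]
      omega

theorem sTile : STile := by
  intro α C A B N H g f
  apply ind_mul
  · intro u v hu hv
    obtain ⟨s, hs, c, hc, rfl⟩ := facA H (g := g) (w := u) hu
    rw [List.append_assoc]
    exact not_N H hs hc hv
  · intro w hw
    obtain ⟨⟨s, c, b⟩, ⟨h1, h2, h3, h4⟩, -⟩ := (H.tiles g f w).2 hw
    refine ⟨s ++ c, b, (H.rcA g _).2 ⟨s, h1, c, h2, rfl⟩, h3, ?_⟩
    rw [List.append_assoc]
    exact h4
  · intro u v u' v' hu hv hu' hv' e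
    obtain ⟨s, hs, c, hc, rfl⟩ := facA H (g := g) (w := u) hu
    obtain ⟨s', hs', c', hc', rfl⟩ := facA H (g := g) (w := u') hu'
    obtain ⟨h1, h2, -⟩ := uniq H hs hc hv hs' hc' hv' (by simpa only [List.append_assoc] using e)
    rw [h1, h2]

theorem sTile' : STile' := by
  intro α C A B N H g f
  apply ind_mul
  · intro u v hu hv
    obtain ⟨c, hc, b, hb, rfl⟩ := fac H (f := f) (w := v) hv
    exact not_N H hu hc hb
  · intro w hw
    obtain ⟨⟨s, c, b⟩, ⟨h1, h2, h3, h4⟩, -⟩ := (H.tiles g f w).2 hw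
    exact ⟨s, c ++ b, h1, (H.lcB f _).2 ⟨c, h2, b, h3, rfl⟩, h4⟩
  · intro u v u' v' hu hv hu' hv' e
    obtain ⟨c, hc, b, hb, rfl⟩ := fac H (f := f) (w := v) hv
    obtain ⟨c', hc', b', hb', rfl⟩ := fac H (f := f) (w := v') hv'
    exact (uniq H hu hc hb hu' hc' hb' e).1

end Pool.Agent.H72.TY
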