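import Pool.Agent.H72.SX.Core
import Pool.Agent.H35.CX.Api

/-!
# Two covered words around a third one
-/

set_option autoImplicit false

namespace Pool.Agent.H72.TY

open Pool.Agent.H35
open Pool.Agent.H35.CX (Ctx rc_of_A lc_of_B rc_star lc_star not_N uniq ncut revF mem_revF)
open Pool.Agent.H35.FC (star_nil)
open Pool.Agent.H72.SX (A_drop B_drop fact_of exists_short_pair short_N case_one)

variable {α : Type}
variable {C : Set (List α)} {A B : List α → Set (List α)} {N : List α → List α → Set (List α)}

/-- Two covered words joined by a letter. -/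
theorem glue (H : Ctx C A B N) {g f u v : List α} {y : α} (hu : u ∈ N g (y :: (v ++ f)))
    (hv : v ∈ N (g ++ u ++ [y]) f) : u ++ y :: v ∈ N g f := by
  by_contra hcon
  obtain ⟨x, hx, c, hc, b, hb, e⟩ := fact_of H hcon
  rcases List.append_eq_append_iff.1 e with ⟨z, e1, e2⟩ | ⟨z, e1, e2⟩
  · -- `u = x ++ z`, `c ++ b = z ++ y :: v`
    refine ncut H (g := g) (f := y :: (v ++ f)) (u1 := x) (u2 := z) (by rw [← e1]; exact hu)
      (rc_of_A H hx) ?_
    have h1 : [] ∈ B ((c ++ b) ++ f) := by
      rw [List.append_assoc]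
      exact lc_star H hc (lc_of_B H hb)
    rw [e2] at h1
    simpa [CX.LC] using h1
  · -- `x = u ++ z`, `y :: v = z ++ (c ++ b)`
    rcases z with _ | ⟨y', z⟩
    · simp only [List.append_nil, List.nil_append] at e1 e2
      subst e1
      refine ncut H (g := g) (f := y :: (v ++ f)) (u1 := x) (u2 := []) (by simpa using hu)
        (rc_of_A H hx) ?_
      have h1 : [] ∈ B ((c ++ b) ++ f) := by
        rw [List.append_assoc]
        exact lc_star H hc (lc_of_B H hb)
      rw [← e2] at h1
      simpa [CX.LC] using h1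
    · rw [List.cons_append, List.cons.injEq] at e2
      obtain ⟨rfl, e2⟩ := e2
      have h1 : z ∈ A (g ++ u ++ [y]) := by
        rw [List.append_assoc]
        apply A_drop H
        have h0 : u ++ y :: z ∈ A g := e1 ▸ hx
        simpa using h0
      have h2 := not_N H h1 hc hb
      rw [← e2] at h2
      exact h2 hv

/-- The shortest word in which the completions of two left contexts differ is covered before
every complete right context. -/
theorem short_N' (H : Ctx C A B N) {g g' w : List α} (hw : w ∈ A g) (hw' : w ∉ A g')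
    (hs : ∀ z, z.length < w.length → (z ∈ A g ↔ z ∈ A g')) {f : List α} (hf : [] ∈ B f) :
    w ∈ N g' f := by
  by_contra hcon
  obtain ⟨a, ha, c, hc, b, hb, e⟩ := fact_of H hcon
  have hl := congrArg List.length e
  simp only [List.length_append] at hl
  rcases Nat.lt_or_ge a.length w.length with h | h
  · have ha' : a ∈ A g := (hs a h).2 ha
    have h1 := uniq H (g := g) (f := f) ha' hc hb hw star_nil hf (by simpa using e)
    rw [h1.1] at h
    exact lt_irrefl _ h
  · have h1 : b = [] := List.length_eq_zero_iff.1 (by omega)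
    have h2 : c = [] := List.length_eq_zero_iff.1 (by omega)
    subst h1
    subst h2
    simp only [List.append_nil] at e
    exact hw' (e ▸ ha)

/-- The mirror image of `case_one`. -/
theorem case_one' (H : Ctx C A B N) (hne : ∀ g f, (N g f).Nonempty) {y : α}
    (hP : ∀ g, [] ∉ A g → [] ∈ A (g ++ [y])) (hP' : ∀ f, [] ∉ B f → [] ∈ B (y :: f))
    (hA : ∀ g g', [] ∉ A g → [] ∉ A g' → A (g ++ [y]) = A (g' ++ [y])) : False := by
  refine case_one H.rev (fun g f => (hne _ _).image _) (y := y) ?_ ?_ ?_
  · intro g hg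
    rw [mem_revF, List.reverse_nil] at hg ⊢
    rw [List.reverse_append, List.reverse_singleton, List.singleton_append]
    exact hP' _ hg
  · intro f hf
    rw [mem_revF, List.reverse_nil] at hf ⊢
    rw [List.reverse_cons]
    exact hP _ hf
  · intro f f' hf hf'
    rw [mem_revF, List.reverse_nil] at hf hf'
    ext v
    rw [mem_revF, mem_revF, List.reverse_cons, List.reverse_cons, hA _ _ hf hf']

/-- If all contexts which end with the letter `y` on the side of the hole are complete and all
sets of covered words are not empty, then a covered word contains `y` twice. -/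
theorem both_two [DecidableEq α] (H : Ctx C A B N) (hne : ∀ g f, (N g f).Nonempty) {y : α}
    (hyA : ∀ g, [] ∈ A (g ++ [y])) (hyB : ∀ f, [] ∈ B (y :: f)) :
    ∃ g f u, (∃ g1, g = g1 ++ [y]) ∧ (∃ f1, f = y :: f1) ∧ u ∈ N g f ∧ 2 ≤ u.count y := by
  -- the right side
  obtain ⟨f, w, hw⟩ : ∃ f w, ∀ g, [] ∈ A g → w ∈ N g (y :: f) := by
    by_contra hcon
    push Not at hcon
    refine case_one H hne (y := y) (fun g _ => hyA g) (fun f _ => hyB f) ?_
    intro f f' _ _
    by_contra hB
    obtain ⟨w, hw, hs⟩ := exists_short_pair hB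
    rcases hw with hw | hw
    · obtain ⟨g, hg, h1⟩ := hcon f' w
      exact h1 (short_N H hw.1 hw.2 hs hg)
    · obtain ⟨g, hg, h1⟩ := hcon f w
      exact h1 (short_N H hw.1 hw.2 (fun z hz => (hs z hz).symm) hg)
  -- the left side
  obtain ⟨g, u, hu⟩ : ∃ g u, ∀ f, [] ∈ B f → u ∈ N (g ++ [y]) f := by
    by_contra hcon
    push Not at hcon
    refine case_one' H hne (y := y) (fun g _ => hyA g) (fun f _ => hyB f) ?_
    intro g g' _ _
    by_contra hA
    obtain ⟨w, hw, hs⟩ := exists_short_pair hA
    rcases hw with hw | hw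
    · obtain ⟨f, hf, h1⟩ := hcon g' w
      exact h1 (short_N' H hw.1 hw.2 hs hf)
    · obtain ⟨f, hf, h1⟩ := hcon g w
      exact h1 (short_N' H hw.1 hw.2 (fun z hz => (hs z hz).symm) hf)
  obtain ⟨v, hv⟩ := hne ((g ++ [y]) ++ u ++ [y]) (y :: (w ++ y :: f))
  have h1 : v ++ y :: w ∈ N ((g ++ [y]) ++ u ++ [y]) (y :: f) := glue H hv (hw _ (hyA _))
  have h2 : u ++ y :: (v ++ y :: w) ∈ N (g ++ [y]) (y :: f) := glue H (hu _ (hyB _)) h1
  refine ⟨g ++ [y], y :: f, _, ⟨g, rfl⟩, ⟨f, rfl⟩, h2, ?_⟩
  simp only [List.count_append, List.count_cons_self]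
  omega

end Pool.Agent.H72.TY
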